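import Pool.Agent.R185.FracTransEx

/-!
# Integer replies of Staller in the fractional transversal game need not be optimal

The hypergraph has the vertices `z, a, b, c, d, x, y, y'` and the edges
`{z}, {a}, {a,b}, {b,c}, {c,d}, {d}, {x,y}, {x,y'}`.  After the integer move of Edge-hitter at `x`
every integer move of Staller leads to the value `≤ 4`, whereas Staller can secure `25/6`.
-/

open Finset

namespace Pool.Agent.Results.MP_dde4b6_co.IntegerReplyNotOptimal

open Pool.Agent.R185.FracTrans

/-- The value under optimal play of the game which starts from the cover function `t`, the total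
weight added during play being counted. (The file `FracTrans` shows that it is equal to
`upperValue H t first`.) -/
noncomputable def value {V : Type} [DecidableEq V] (H : FinHypergraph V) (t : V → ℝ)
    (first : Player) : EReal := lowerValue H t first

/-- The move `m` of Staller at the position `t` is optimal:
its weight plus the value of the position after it, with Edge-hitter to move,
is the value of the position `t` with Staller to move. -/
def IsOptimalStallerMove {V : Type} [DecidableEq V] (H : FinHypergraph V) (t : V → ℝ)
    (m : Move V) : Prop :=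
  Legal H t m ∧ (m.weight : EReal) + value H (after t m) .hitter = value H t .staller

/-- The negation of Q1: it is not true that, for every hypergraph and every `k ≥ 1`, whenever the
moves `1, …, 2k - 1` of a play starting from the zero cover function are integer moves
and the hypergraph is not fully covered after them, Staller has a legal integer move
which is optimal.  (The last conjunct records that the values are well defined.) -/
theorem result :
    (¬ ∀ (V : Type) [Fintype V] [DecidableEq V] (H : FinHypergraph V) (k : ℕ), 1 ≤ k →
      ∀ L : List (Move V), L.length = 2 * k - 1 → IsPlay H (fun _ => 0) L →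
        (∀ m ∈ L, ∃ v, IsIntegerMove m v) → ¬ FullyCovered H (final (fun _ => 0) L) →
        ∃ (m : Move V) (v : V), IsIntegerMove m v ∧
          IsOptimalStallerMove H (final (fun _ => 0) L) m) ∧
    ∀ (V : Type) [Nonempty V] [DecidableEq V] (H : FinHypergraph V) (t : V → ℝ) (first : Player),
      value H t first = upperValue H t first := by
  refine ⟨?_, fun V _ _ H t first => lowerValue_eq_upperValue H t first⟩
  intro hall
  have hi := intMove_isIntegerMove (5 : Fin 8)
  have hload0 : load (fun _ : Fin 8 => (0 : ℝ)) {5, 6} ≤ 0 :=
    (load_pair_le _ (by decide)).trans (by norm_num)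
  have hleg : Legal H₀ (fun _ => 0) (intMove 5) :=
    intMove_legal (E := {5, 6}) (by decide) (by decide) hload0
  have haft : after (fun _ => (0 : ℝ)) (intMove (5 : Fin 8)) = fun u => if u = 5 then 1 else 0 := by
    rw [hi.after]; simp
  have hnn : ∀ u : Fin 8, (0 : ℝ) ≤ if u = 5 then 1 else 0 := fun u => by split_ifs <;> norm_num
  have hsum : ∑ u : Fin 8, (if u = 5 then (1 : ℝ) else 0) = 1 := by simp
  have hnc : ¬ FullyCovered H₀ (fun u => if u = 5 then (1 : ℝ) else 0) :=
    not_covered_of_sum hnn (by rw [hsum]; norm_num)
  obtain ⟨m, v, hmi, hml, hopt⟩ := hall (Fin 8) H₀ 1 le_rfl [intMove 5] rfl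
    ⟨not_covered_of_sum (fun _ => le_rfl) (by simp), hleg, trivial⟩
    (by intro m hm; rw [List.mem_singleton] at hm; subst hm; exact ⟨5, hi⟩)
    (by show ¬ FullyCovered H₀ (after _ _); rw [haft]; exact hnc)
  have hpos : final (fun _ => (0 : ℝ)) [intMove (5 : Fin 8)] = fun u => if u = 5 then 1 else 0 :=
    haft
  rw [hpos] at hml hopt
  -- the vertex `v` is good
  have hex : ∃ E ∈ H₀.edges, v ∈ E ∧ load (fun u => if u = 5 then (1 : ℝ) else 0) E < 1 := by
    obtain ⟨E, hE, hv, hl⟩ := hml.submove 0 (by rw [hmi.1]; norm_num)
    rw [hmi.2.1] at hv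
    rw [hmi.2.2] at hl
    have := hml.placed_nonneg E 0
    exact ⟨E, hE, hv, by linarith⟩
  obtain ⟨v', hgood⟩ := exists_good hex
  have haft2 : after (fun u => if u = 5 then (1 : ℝ) else 0) m = pos v := by
    rw [hmi.after]; rfl
  have hup : value H₀ (after (fun u => if u = 5 then (1 : ℝ) else 0) m) .hitter ≤ ((3 : ℝ) : EReal) := by
    rw [haft2]
    unfold value
    rw [lowerValue_eq_upperValue]
    exact upperValue_le hgood.can
  have hlow : ((25 / 6 : ℝ) : EReal) ≤ value H₀ (fun u => if u = 5 then (1 : ℝ) else 0) .staller := by
    refine le_lowerValue ?_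
    refine (staller_first hnn hsum.le (by norm_num)).mono fun y hy => ?_
    unfold Q at hy
    rw [hsum] at hy
    linarith
  rw [← hopt, hmi.weight] at hlow
  have h4 : ((1 : ℝ) : EReal) + value H₀ (after (fun u => if u = 5 then (1 : ℝ) else 0) m) .hitter
      ≤ ((1 : ℝ) : EReal) + ((3 : ℝ) : EReal) := add_le_add le_rfl hup
  have h5 := hlow.trans h4
  rw [← EReal.coe_add, EReal.coe_le_coe_iff] at h5
  norm_num at h5

end Pool.Agent.Results.MP_dde4b6_co.IntegerReplyNotOptimal
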